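import Pool.Agent.H.MP_5333ad_co.A

set_option autoImplicit false

namespace Pool.Agent.Results.MP_5333ad_co.No
open Pool.Agent.H.MP_5333ad_co

theorem result (c : ℝ) (hc : 0 < c) :
    ∃ (d : ℕ) (ε : ℝ) (S : Finset (Fin d → ℤ)) (B : Finset ((Fin d → ℤ) × (Fin d → ℤ))),
      1 ≤ d ∧ 0 < ε ∧
      (∀ p, p ∈ B ↔ p.1 ∈ S ∧ p.2 ∉ S ∧ ∑ i, |p.1 i - p.2 i| = 1) ∧
      (B.card : ℝ) ≤ 2 * d * (S.card : ℝ) ^ (((d : ℝ) - 1) / d) * (1 + ε) ∧
      ∀ (a : Fin d → ℤ) (k : ℕ), 1 ≤ k →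
        c * Real.sqrt (d * ε) * S.card <
          (symmDiff S (Fintype.piFinset fun i => Finset.Ico (a i) (a i + k))).card := by
  obtain ⟨k, hk⟩ := exists_nat_gt (c ^ 2)
  have h0 : (0 : ℝ) < k := lt_trans (by positivity) hk
  have hk0 : 0 < k := Nat.cast_pos.1 h0
  obtain ⟨B, hB, hB2⟩ := bdry (sd k) (sd_pos k hk0)
  refine ⟨k + k, 1 / (8 * (k : ℝ) ^ 2), box (sd k), B, by omega, by positivity, hB, ?_, ?_⟩
  · rw [sum_sd k hk0] at hB2
    exact hB2.trans (iso k hk0)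
  · intro a m _
    have h1 := far k hk0 (Fintype.piFinset fun i => Finset.Ico (a i) (a i + m)) m (by
      simp [Fintype.card_piFinset])
    have h2 : (0 : ℝ) < (box (sd k)).card := by
      rw [card_sd]; positivity
    have h3 : c * Real.sqrt (((k + k : ℕ) : ℝ) * (1 / (8 * (k : ℝ) ^ 2))) < 1 / 2 := by
      rw [← Real.sqrt_sq hc.le, ← Real.sqrt_mul (by positivity), Real.sqrt_lt' (by norm_num)]
      have : ((k + k : ℕ) : ℝ) * (1 / (8 * (k : ℝ) ^ 2)) = 1 / (4 * k) := by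
        push_cast; field_simp; ring
      rw [this, mul_one_div, div_lt_iff₀ (by positivity)]
      linarith
    have h4 : ((box (sd k)).card : ℝ) ≤ 2 * (symmDiff (box (sd k))
        (Fintype.piFinset fun i => Finset.Ico (a i) (a i + m))).card := by exact_mod_cast h1
    have h5 := mul_lt_mul_of_pos_right h3 h2
    linarith

end Pool.Agent.Results.MP_5333ad_co.No
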